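import Mathlib

/-!
Two-letter block queue systems and their simulation of TM0 machines.
A queue word `x :: y :: t` is rewritten to `t ++ P x y`.
-/

set_option autoImplicit false

namespace Pool.Agent.Helper247.Queue

open Turing StateTransition Relation

/-- One step of the queue system with block productions `P`. -/
inductive QStep {S : Type*} (P : S → S → List S) : List S → List S → Prop
  | mk (x y : S) (t : List S) : QStep P (x :: y :: t) (t ++ P x y)

/-- Reachability in the queue system. -/
abbrev QReach {S : Type*} (P : S → S → List S) : List S → List S → Prop :=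
  ReflTransGen (QStep P)

/-- Reachability in at least one step. -/
abbrev QReach₁ {S : Type*} (P : S → S → List S) : List S → List S → Prop :=
  TransGen (QStep P)

theorem qstep_det {S : Type*} {P : S → S → List S} {a b c : List S}
    (h1 : QStep P a b) (h2 : QStep P a c) : b = c := by
  cases h1
  cases h2
  rfl

theorem no_qstep_singleton {S : Type*} {P : S → S → List S} {k : S} {b : List S} :
    ¬ QStep P [k] b := by
  intro h
  cases h

/-- Symbols of the queue simulation of a TM0 machine. -/
inductive Sym (Γ Λ : Type)
  | cell (a : Γ)
  | head (q : Λ) (a : Γ)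
  | mark
  | kill

instance {Γ Λ : Type} [Finite Γ] [Finite Λ] : Finite (Sym Γ Λ) := by
  classical
  let f : Sym Γ Λ → (Γ ⊕ (Λ × Γ)) ⊕ Bool := fun s => match s with
    | .cell a => .inl (.inl a)
    | .head q a => .inl (.inr (q, a))
    | .mark => .inr true
    | .kill => .inr false
  apply Finite.of_injective f
  intro x y h
  cases x <;> cases y <;> simp_all [f]

variable {Γ Λ : Type} [Inhabited Γ] [Inhabited Λ]

/-- The block productions simulating the machine `M`. -/
def prod (M : TM0.Machine Γ Λ) : Sym Γ Λ → Sym Γ Λ → List (Sym Γ Λ)
  | .head q a, y =>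
    match M q a with
    | none => [.kill, y]
    | some (q', .write b) => [.head q' b, y]
    | some (q', .move Dir.right) =>
      match y with
      | .cell b => [.cell a, .head q' b]
      | .mark => [.cell a, .head q' default, .cell default, .mark]
      | y => [.head q a, y]
    | some (_, .move Dir.left) => [.head q a, y]
  | x, .head q a =>
    match M q a with
    | none => [x, .kill]
    | some (q', .write b) => [x, .head q' b]
    | some (q', .move Dir.left) =>
      match x with
      | .cell b => [.head q' b, .cell a]
      | .mark => [.mark, .cell default, .head q' default, .cell a]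
      | x => [x, .head q a]
    | some (_, .move Dir.right) => [x, .head q a]
  | .kill, .kill => [.mark, .mark]
  | .kill, _ => [.kill]
  | _, .kill => [.kill]
  | x, y => [x, y]

theorem prod_length (M : TM0.Machine Γ Λ) (x y : Sym Γ Λ) :
    2 ≤ (prod M x y).length ∨ prod M x y = [.kill] := by
  rcases x with a | ⟨q, a⟩ | _ | _ <;> rcases y with b | ⟨r, b⟩ | _ | _ <;>
    simp only [prod, List.length_cons, List.length_nil] <;>
    first
      | (left; omega)
      | (right; trivial)
      | (left
         split <;> (simp only [List.length_cons, List.length_nil]; omega))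

theorem prod_kill_kill (M : TM0.Machine Γ Λ) :
    prod M .kill .kill = [.mark, .mark] := rfl

/-- A symbol which is a tape cell or the end mark. -/
def Plain : Sym Γ Λ → Prop
  | .cell _ => True
  | .mark => True
  | _ => False

theorem prod_plain (M : TM0.Machine Γ Λ) {x y : Sym Γ Λ} (hx : Plain x) (hy : Plain y) :
    prod M x y = [x, y] := by
  rcases x with a | ⟨q, a⟩ | _ | _ <;> rcases y with b | ⟨r, b⟩ | _ | _ <;>
    simp_all [prod, Plain]

theorem prod_kill_plain (M : TM0.Machine Γ Λ) {y : Sym Γ Λ} (hy : Plain y) :
    prod M .kill y = [.kill] := by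
  rcases y with b | ⟨r, b⟩ | _ | _ <;>
    simp_all [prod, Plain]

theorem prod_plain_kill (M : TM0.Machine Γ Λ) {y : Sym Γ Λ} (hy : Plain y) :
    prod M y .kill = [.kill] := by
  rcases y with b | ⟨r, b⟩ | _ | _ <;>
    simp_all [prod, Plain]

/-- An even block of plain symbols is rotated to the end. -/
theorem rotate_plain (M : TM0.Machine Γ Λ) :
    ∀ (n : ℕ) (u rest : List (Sym Γ Λ)), u.length = 2 * n → (∀ x ∈ u, Plain x) →
      QReach (prod M) (u ++ rest) (rest ++ u) := by
  intro n
  induction n with
  | zero =>
    intro u rest hu _
    have : u = [] := List.eq_nil_of_length_eq_zero (by omega)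
    subst this
    simp only [List.nil_append, List.append_nil]
    exact ReflTransGen.refl
  | succ n ih =>
    intro u rest hu hp
    match u, hu, hp with
    | x :: y :: u', hu, hp =>
      have h1 : QStep (prod M) (x :: y :: (u' ++ rest)) ((u' ++ rest) ++ prod M x y) :=
        QStep.mk x y _
      rw [prod_plain M (hp x (by simp)) (hp y (by simp))] at h1
      have h2 := ih u' (rest ++ [x, y]) (by simp at hu; omega)
        (fun z hz => hp z (by simp [hz]))
      refine ReflTransGen.head h1 ?_
      simpa using h2

/-- A word with a single killer symbol collapses to the killer symbol. -/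
theorem kill_phase (M : TM0.Machine Γ Λ) :
    ∀ (n : ℕ) (m : ℕ) (u v : List (Sym Γ Λ)), u.length + v.length = n → u.length = m →
      (∀ x ∈ u, Plain x) → (∀ x ∈ v, Plain x) →
      QReach (prod M) (u ++ .kill :: v) [.kill] := by
  intro n
  induction n with
  | zero =>
    intro m u v h _ _ _
    have hu : u = [] := List.eq_nil_of_length_eq_zero (by omega)
    have hv : v = [] := List.eq_nil_of_length_eq_zero (by omega)
    subst hu hv
    exact ReflTransGen.refl
  | succ n ih =>
    intro m
    induction m using Nat.strong_induction_on with
    | _ m ihm =>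
      intro u v h hm hu hv
      match u, h, hm, hu with
      | [], h, hm, hu =>
        match v, h, hv with
        | [], h, _ => simp at h
        | y :: t, h, hv =>
          have h1 : QStep (prod M) (.kill :: y :: t) (t ++ prod M .kill y) := QStep.mk _ _ _
          rw [prod_kill_plain M (hv y (by simp))] at h1
          refine ReflTransGen.head h1 ?_
          exact ih t.length t [] (by simp at h ⊢; omega) rfl
            (fun z hz => hv z (by simp [hz])) (by simp)
      | [x], h, hm, hu =>
        have h1 : QStep (prod M) (x :: .kill :: v) (v ++ prod M x .kill) := QStep.mk _ _ _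
        rw [prod_plain_kill M (hu x (by simp))] at h1
        refine ReflTransGen.head h1 ?_
        exact ih v.length v [] (by simp at h ⊢; omega) rfl hv (by simp)
      | x :: y :: u', h, hm, hu =>
        have h1 : QStep (prod M) (x :: y :: (u' ++ .kill :: v))
            ((u' ++ .kill :: v) ++ prod M x y) := QStep.mk _ _ _
        rw [prod_plain M (hu x (by simp)) (hu y (by simp))] at h1
        refine ReflTransGen.head h1 ?_
        have := ihm u'.length (by simp at hm; omega) u' (v ++ [x, y])
          (by simp at h ⊢; omega) rfl (fun z hz => hu z (by simp [hz]))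
          (by
            intro z hz
            simp only [List.mem_append, List.mem_cons, List.not_mem_nil, or_false] at hz
            rcases hz with hz | rfl | rfl
            · exact hv z hz
            · exact hu z (by simp)
            · exact hu z (by simp))
        simpa using this

/-- The cyclic word of a tape, read from just right of the head around to just left of it. -/
def ring (l r : List Γ) : List (Sym Γ Λ) :=
  r.map .cell ++ .mark :: (l.map .cell).reverse

omit [Inhabited Γ] [Inhabited Λ] in
theorem ring_plain (l r : List Γ) : ∀ x ∈ (ring l r : List (Sym Γ Λ)), Plain x := by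
  intro x hx
  simp only [ring, List.mem_append, List.mem_map, List.mem_cons, List.mem_reverse] at hx
  rcases hx with ⟨a, _, rfl⟩ | rfl | ⟨a, _, rfl⟩ <;> simp [Plain]

/-- The queue word `z` represents the configuration `c`. -/
def Rep (c : TM0.Cfg Γ Λ) (z : List (Sym Γ Λ)) : Prop :=
  ∃ (u v : List (Sym Γ Λ)) (l r : List Γ),
    z = u ++ .head c.q c.Tape.head :: v ∧ v ++ u = ring l r ∧
    Even (ring l r : List (Sym Γ Λ)).length ∧
    c.Tape.left = ListBlank.mk l ∧ c.Tape.right = ListBlank.mk r

/-- From a represented configuration the queue reaches one of the two aligned forms. -/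
theorem align (M : TM0.Machine Γ Λ) (x : Sym Γ Λ) (u v T : List (Sym Γ Λ))
    (hT : v ++ u = T) (hp : ∀ y ∈ T, Plain y) :
    QReach (prod M) (u ++ x :: v) (x :: T) ∨
      ∃ t y, T = t ++ [y] ∧ QReach (prod M) (u ++ x :: v) (y :: x :: t) := by
  subst hT
  rcases Nat.even_or_odd' u.length with ⟨k, hk | hk⟩
  · left
    have := rotate_plain M k u (x :: v) hk (fun y hy => hp y (by simp [hy]))
    simpa using this
  · right
    have hne : u ≠ [] := by
      rintro rfl
      simp at hk
    obtain ⟨u', y, rfl⟩ : ∃ u' y, u = u' ++ [y] :=
      ⟨u.dropLast, u.getLast hne, (List.dropLast_append_getLast hne).symm⟩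
    refine ⟨v ++ u', y, by simp, ?_⟩
    have := rotate_plain M k u' (y :: x :: v) (by simp at hk; omega)
      (fun z hz => hp z (by simp [hz]))
    simpa using this

omit [Inhabited Γ] [Inhabited Λ] in
theorem ring_ne_nil (l r : List Γ) : (ring l r : List (Sym Γ Λ)) ≠ [] := by
  simp [ring]

/-- If the head symbol waits as first element of a block, the second form is reached. -/
theorem alignB (M : TM0.Machine Γ Λ) (x : Sym Γ Λ) (u v T : List (Sym Γ Λ))
    (hT : v ++ u = T) (hp : ∀ y ∈ T, Plain y) (he : Even T.length) (hne : T ≠ [])
    (hw : ∀ y, Plain y → prod M x y = [x, y]) :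
    ∃ t y, T = t ++ [y] ∧ QReach (prod M) (u ++ x :: v) (y :: x :: t) := by
  rcases align M x u v T hT hp with h | h
  · match T, hne, he, hp, h with
    | y :: T', _, he, hp, h =>
      have h1 : QStep (prod M) (x :: y :: T') (T' ++ prod M x y) := QStep.mk _ _ _
      rw [hw y (hp y (by simp))] at h1
      have hne' : T' ≠ [] := by
        rintro rfl
        simp at he
      obtain ⟨T'', y', rfl⟩ : ∃ T'' y', T' = T'' ++ [y'] :=
        ⟨T'.dropLast, T'.getLast hne', (List.dropLast_append_getLast hne').symm⟩
      obtain ⟨k, hk⟩ := he
      have h2 := rotate_plain M (k - 1) T'' (y' :: [x, y]) (by simp at hk; omega)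
        (fun z hz => hp z (by simp [hz]))
      refine ⟨y :: T'', y', by simp, ?_⟩
      refine h.trans (ReflTransGen.head h1 ?_)
      simpa using h2
  · exact h

/-- If the head symbol waits as second element of a block, the first form is reached. -/
theorem alignA (M : TM0.Machine Γ Λ) (x : Sym Γ Λ) (u v T : List (Sym Γ Λ))
    (hT : v ++ u = T) (hp : ∀ y ∈ T, Plain y) (he : Even T.length)
    (hw : ∀ y, Plain y → prod M y x = [y, x]) :
    QReach (prod M) (u ++ x :: v) (x :: T) := by
  rcases align M x u v T hT hp with h | ⟨t, y, rfl, h⟩
  · exact h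
  · have h1 : QStep (prod M) (y :: x :: t) (t ++ prod M y x) := QStep.mk _ _ _
    rw [hw y (hp y (by simp))] at h1
    obtain ⟨k, hk⟩ := he
    have h2 := rotate_plain M k (t ++ [y]) [x] (by omega) hp
    refine h.trans (ReflTransGen.head h1 ?_)
    simpa using h2

theorem mk_default_nil : ListBlank.mk [(default : Γ)] = ListBlank.mk [] := by
  apply ListBlank.ext
  intro i
  rw [ListBlank.nth_mk, ListBlank.nth_mk]
  cases i <;> rfl

theorem rep_step (M : TM0.Machine Γ Λ) (c : TM0.Cfg Γ Λ) (z : List (Sym Γ Λ)) (h : Rep c z) :
    (∀ c', TM0.step M c = some c' → ∃ z', Rep c' z' ∧ QReach₁ (prod M) z z') ∧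
    (TM0.step M c = none → QReach (prod M) z [.kill]) := by
  obtain ⟨u, v, l, r, rfl, hring, heven, hl, hr⟩ := h
  obtain ⟨q, ⟨a, L, R⟩⟩ := c
  simp only at hl hr
  subst hl hr
  have hplain := ring_plain (Λ := Λ) l r
  have hne := ring_ne_nil (Λ := Λ) l r
  simp only
  rcases hM : M q a with _ | ⟨q', d | b⟩
  · -- halting
    refine ⟨by intro c' hc'; simp [TM0.step, hM] at hc', fun _ => ?_⟩
    rcases align M (.head q a) u v (ring l r) hring hplain with h | ⟨t, y, ht, h⟩
    · match hT : ring l r, hne, hplain, h with
      | y :: T', _, hplain, h =>
        have h1 : QStep (prod M) (.head q a :: y :: T') (T' ++ prod M (.head q a) y) :=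
          QStep.mk _ _ _
        have hp : prod M (.head q a) y = [.kill, y] := by simp [prod, hM]
        rw [hp] at h1
        refine h.trans (ReflTransGen.head h1 ?_)
        exact kill_phase M _ _ T' [y] rfl rfl (fun z hz => hplain z (by simp [hz]))
          (fun z hz => hplain z (by simp at hz; simp [hz]))
    · have h1 : QStep (prod M) (y :: .head q a :: t) (t ++ prod M y (.head q a)) :=
          QStep.mk _ _ _
      have hy : Plain y := hplain y (by simp [ht])
      have hp : prod M y (.head q a) = [y, .kill] := by
        rcases y with b | ⟨_, b⟩ | _ | _ <;> simp_all [prod, Plain]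
      rw [hp] at h1
      refine h.trans (ReflTransGen.head h1 ?_)
      have := kill_phase M _ _ (t ++ [y]) [] rfl rfl
        (fun z hz => hplain z (by rw [ht]; exact hz)) (by simp)
      simpa using this
  · refine ⟨?_, by intro hc'; simp [TM0.step, hM] at hc'⟩
    intro c' hc'
    simp only [TM0.step, hM, Option.map_some, Option.some.injEq] at hc'
    subst hc'
    rcases d with _ | _
    · -- move left
      obtain ⟨t, y, ht, h⟩ := alignB M (.head q a) u v (ring l r) hring hplain heven hne
        (by
          intro y hy
          rcases y with b | ⟨_, b⟩ | _ | _ <;> simp_all [prod, Plain])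
      have h1 : QStep (prod M) (y :: .head q a :: t) (t ++ prod M y (.head q a)) :=
          QStep.mk _ _ _
      rcases l with _ | ⟨b, l'⟩
      · -- at the left end
        have : y = .mark ∧ t = r.map .cell := by
          simp only [ring, List.map_nil, List.reverse_nil] at ht
          have := List.append_inj' ht rfl
          simp only [List.cons.injEq, and_true] at this
          exact ⟨this.2.symm, this.1.symm⟩
        obtain ⟨rfl, rfl⟩ := this
        have hp : prod M .mark (.head q a) =
            [.mark, .cell default, .head q' default, .cell a] := by simp [prod, hM]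
        rw [hp] at h1
        refine ⟨_, ⟨r.map .cell ++ [.mark, .cell default], [.cell a], [default], a :: r, ?_, ?_,
          ?_, ?_, ?_⟩, TransGen.tail' ?_ h1⟩
        · simp [Tape.move]
        · simp [ring]
        · simp [ring] at heven ⊢
          obtain ⟨k, hk⟩ := heven
          exact ⟨k + 1, by omega⟩
        · simp only [Tape.move]
          rw [mk_default_nil, ListBlank.tail_mk]
          rfl
        · simp [Tape.move]
        · exact h
      · have : y = .cell b ∧ t = ring l' r := by
          simp only [ring, List.map_cons, List.reverse_cons] at ht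
          rw [← List.cons_append, ← List.append_assoc] at ht
          have := List.append_inj' ht rfl
          simp only [List.cons.injEq, and_true] at this
          refine ⟨this.2.symm, ?_⟩
          rw [← this.1]
          simp [ring]
        obtain ⟨rfl, rfl⟩ := this
        have hp : prod M (.cell b) (.head q a) = [.head q' b, .cell a] := by simp [prod, hM]
        rw [hp] at h1
        refine ⟨_, ⟨ring l' r, [.cell a], l', a :: r, ?_, ?_,
          ?_, ?_, ?_⟩, TransGen.tail' ?_ h1⟩
        · simp [Tape.move]
        · simp [ring]
        · simp [ring] at heven ⊢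
          obtain ⟨k, hk⟩ := heven
          exact ⟨k, by omega⟩
        · simp [Tape.move]
        · simp [Tape.move]
        · exact h
    · -- move right
      have h := alignA M (.head q a) u v (ring l r) hring hplain heven
        (by
          intro y hy
          rcases y with b | ⟨_, b⟩ | _ | _ <;> simp_all [prod, Plain])
      rcases r with _ | ⟨b, r'⟩
      · have h1 : QStep (prod M) (.head q a :: .mark :: (l.map .cell).reverse)
            ((l.map .cell).reverse ++ prod M (.head q a) .mark) := QStep.mk _ _ _
        have hp : prod M (.head q a) .mark =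
            [.cell a, .head q' default, .cell default, .mark] := by simp [prod, hM]
        rw [hp] at h1
        refine ⟨_, ⟨(l.map .cell).reverse ++ [.cell a], [.cell default, .mark], a :: l, [default],
          ?_, ?_, ?_, ?_, ?_⟩, TransGen.tail' ?_ h1⟩
        · simp [Tape.move]
        · simp [ring]
        · simp [ring] at heven ⊢
          obtain ⟨k, hk⟩ := heven
          exact ⟨k + 1, by omega⟩
        · simp [Tape.move]
        · simp only [Tape.move]
          rw [mk_default_nil, ListBlank.tail_mk]
          rfl
        · simpa [ring] using h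
      · have h1 : QStep (prod M) (.head q a :: .cell b :: ring l r')
            (ring l r' ++ prod M (.head q a) (.cell b)) := QStep.mk _ _ _
        have hp : prod M (.head q a) (.cell b) = [.cell a, .head q' b] := by simp [prod, hM]
        rw [hp] at h1
        refine ⟨_, ⟨ring l r' ++ [.cell a], [], a :: l, r', ?_, ?_,
          ?_, ?_, ?_⟩, TransGen.tail' ?_ h1⟩
        · simp [Tape.move]
        · simp [ring]
        · simp [ring] at heven ⊢
          obtain ⟨k, hk⟩ := heven
          exact ⟨k, by omega⟩
        · simp [Tape.move]
        · simp [Tape.move]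
        · simpa [ring] using h
  · -- write
    refine ⟨?_, by intro hc'; simp [TM0.step, hM] at hc'⟩
    intro c' hc'
    simp only [TM0.step, hM, Option.map_some, Option.some.injEq] at hc'
    subst hc'
    rcases align M (.head q a) u v (ring l r) hring hplain with h | ⟨t, y, ht, h⟩
    · match hT : ring l r, hne, hplain, h with
      | y :: T', _, hplain, h =>
        have h1 : QStep (prod M) (.head q a :: y :: T') (T' ++ prod M (.head q a) y) :=
          QStep.mk _ _ _
        have hp : prod M (.head q a) y = [.head q' b, y] := by simp [prod, hM]
        rw [hp] at h1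
        refine ⟨_, ⟨T', [y], l, r, ?_, ?_, heven, ?_, ?_⟩, TransGen.tail' h h1⟩
        · simp [Tape.write]
        · simp [hT]
        · simp [Tape.write]
        · simp [Tape.write]
    · have h1 : QStep (prod M) (y :: .head q a :: t) (t ++ prod M y (.head q a)) :=
          QStep.mk _ _ _
      have hy : Plain y := hplain y (by simp [ht])
      have hp : prod M y (.head q a) = [y, .head q' b] := by
        rcases y with b | ⟨_, b⟩ | _ | _ <;> simp_all [prod, Plain]
      rw [hp] at h1
      refine ⟨_, ⟨t ++ [y], [], l, r, ?_, ?_, heven, ?_, ?_⟩, TransGen.tail' h h1⟩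
      · simp [Tape.write]
      · simp [ht]
      · simp [Tape.write]
      · simp [Tape.write]

omit [Inhabited Λ] in
theorem rep_ne_kill {c : TM0.Cfg Γ Λ} : ¬ Rep c [Sym.kill] := by
  rintro ⟨u, v, l, r, h, -⟩
  rcases u with _ | ⟨x, u⟩
  · simp at h
  · simp at h

/-- The queue reaches the killer symbol exactly when the machine halts. -/
theorem rep_halts (M : TM0.Machine Γ Λ) {c : TM0.Cfg Γ Λ} {z : List (Sym Γ Λ)} (h : Rep c z) :
    QReach (prod M) z [.kill] ↔ (StateTransition.eval (TM0.step M) c).Dom := by
  constructor
  · intro hz
    suffices H : ∀ z, QReach (prod M) z [.kill] → ∀ c z'', QReach (prod M) z z'' → Rep c z'' →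
        (StateTransition.eval (TM0.step M) c).Dom from H z hz c z ReflTransGen.refl h
    intro z hz
    induction hz using ReflTransGen.head_induction_on with
    | refl =>
      intro c z'' h1 h2
      rcases ReflTransGen.cases_head h1 with rfl | ⟨w, hw, -⟩
      · exact absurd h2 rep_ne_kill
      · exact absurd hw no_qstep_singleton
    | @head a b hab _ ih =>
      intro c z'' h1 h2
      rcases ReflTransGen.cases_head h1 with rfl | ⟨w, hw, hw2⟩
      · rcases hs : TM0.step M c with _ | c'
        · have : c ∈ StateTransition.eval (TM0.step M) c :=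
            StateTransition.mem_eval.2 ⟨ReflTransGen.refl, hs⟩
          exact Part.dom_iff_mem.2 ⟨c, this⟩
        · obtain ⟨z', hz', hz''⟩ := (rep_step M c _ h2).1 c' hs
          obtain ⟨w, hw1, hw2⟩ := TransGen.head'_iff.1 hz''
          have : w = b := qstep_det hw1 hab
          subst this
          have := ih c' z' hw2 hz'
          rwa [StateTransition.reaches_eval
            (ReflTransGen.single (by exact hs) : StateTransition.Reaches (TM0.step M) c c')]
      · have : w = b := qstep_det hw hab
        subst this
        exact ih c z'' hw2 h2
  · intro hd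
    obtain ⟨b, hb⟩ : ∃ b, b ∈ StateTransition.eval (TM0.step M) c := Part.dom_iff_mem.1 hd
    obtain ⟨hr, hn⟩ := StateTransition.mem_eval.1 hb
    have : ∀ b, StateTransition.Reaches (TM0.step M) c b →
        ∃ z', Rep b z' ∧ QReach (prod M) z z' := by
      intro b hr
      induction hr with
      | refl => exact ⟨z, h, ReflTransGen.refl⟩
      | tail _ hs ih =>
        obtain ⟨z1, hz1, hz2⟩ := ih
        obtain ⟨z', hz', hz''⟩ := (rep_step M _ _ hz1).1 _ hs
        exact ⟨z', hz', hz2.trans hz''.to_reflTransGen⟩
    obtain ⟨z', hz', hz''⟩ := this b hr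
    exact hz''.trans ((rep_step M _ _ hz').2 hn)

/-- The initial queue word for the tape input `l`. -/
def initWord (l : List Γ) : List (Sym Γ Λ) :=
  if l.length % 2 = 0 then
    .mark :: .head default l.headI :: l.tail.map .cell
  else
    .mark :: .cell default :: .head default l.headI :: l.tail.map .cell

theorem rep_init (l : List Γ) (hl : l ≠ []) : Rep (TM0.init l : TM0.Cfg Γ Λ) (initWord l) := by
  obtain ⟨a, l', rfl⟩ := List.exists_cons_of_ne_nil hl
  unfold initWord
  split_ifs with h
  · refine ⟨[.mark], l'.map .cell, [], l', ?_, ?_, ?_, ?_, ?_⟩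
    · simp [TM0.init, Tape.mk₁, Tape.mk₂]
    · simp [ring]
    · simp only [ring, List.length_append, List.length_map, List.length_cons, List.map_nil,
        List.reverse_nil, List.length_nil]
      simp only [List.length_cons] at h
      exact ⟨(l'.length + 1) / 2, by omega⟩
    · simp [TM0.init, Tape.mk₁, Tape.mk₂]
    · simp [TM0.init, Tape.mk₁, Tape.mk₂]
  · refine ⟨[.mark, .cell default], l'.map .cell, [default], l', ?_, ?_, ?_, ?_, ?_⟩
    · simp [TM0.init, Tape.mk₁, Tape.mk₂]
    · simp [ring]
    · simp only [ring, List.length_append, List.length_map, List.length_cons, List.map_nil,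
        List.reverse_cons, List.reverse_nil, List.length_nil, List.map_cons]
      simp only [List.length_cons] at h
      exact ⟨(l'.length + 2) / 2, by omega⟩
    · simp [TM0.init, Tape.mk₁, Tape.mk₂, mk_default_nil]
    · simp [TM0.init, Tape.mk₁, Tape.mk₂]

theorem initWord_length (l : List Γ) :
    2 ≤ (initWord l : List (Sym Γ Λ)).length := by
  unfold initWord
  split_ifs <;> simp

end Pool.Agent.Helper247.Queue
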