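import Mathlib
import Pool.Agent.Helper247.Queue

/-!
From a two-letter block queue system to a correspondence instance with unique equality
continuation.
-/

set_option autoImplicit false

namespace Pool.Agent.Helper247.UecPcp

open Relation Pool.Agent.Helper247.Queue

/-- Comparable words. -/
def Comp (X Y : List ℕ) : Prop := X <+: Y ∨ Y <+: X

theorem comp_append_left {X A B : List ℕ} : Comp (X ++ A) (X ++ B) ↔ Comp A B := by
  simp [Comp, List.prefix_append_right_inj]

theorem comp_prefix {X Y A B : List ℕ} (h : Comp (X ++ A) (Y ++ B)) : Comp X Y := by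
  rcases h with h | h
  · exact List.prefix_or_prefix_of_prefix ((List.prefix_append X A).trans h)
      (List.prefix_append Y B)
  · exact List.prefix_or_prefix_of_prefix (List.prefix_append X A)
      ((List.prefix_append Y B).trans h)

theorem comp_cons {a b : ℕ} {A B : List ℕ} (h : Comp (a :: A) (b :: B)) : a = b ∧ Comp A B := by
  rcases h with h | h
  · rw [List.cons_prefix_cons] at h
    exact ⟨h.1, Or.inl h.2⟩
  · rw [List.cons_prefix_cons] at h
    exact ⟨h.1.symm, Or.inr h.2⟩

section

variable {S : Type} (P : S → S → List S) (K : S)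

/-- The productions with alternating colours: every produced letter gets the colour opposite to
that of the first consumed letter. -/
def Phat (x y : S × Bool) : List (S × Bool) := (P x.1 y.1).map (fun z => (z, !x.2))

theorem phat_proj {z z' : List (S × Bool)} (h : QStep (Phat P) z z') :
    QStep P (z.map Prod.fst) (z'.map Prod.fst) := by
  cases h with
  | mk x y t =>
    have := QStep.mk (P := P) x.1 y.1 (t.map Prod.fst)
    simpa [Phat, Function.comp_def] using this

theorem phat_lift {z : List (S × Bool)} {w : List S} (h : QStep P (z.map Prod.fst) w) :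
    ∃ z', QStep (Phat P) z z' ∧ z'.map Prod.fst = w := by
  generalize hz : z.map Prod.fst = z0 at h
  cases h with
  | mk x y t =>
    match z, hz with
    | x' :: y' :: t', hz =>
      simp only [List.map_cons, List.cons.injEq] at hz
      obtain ⟨rfl, rfl, rfl⟩ := hz
      exact ⟨_, QStep.mk x' y' t', by simp [Phat, Function.comp_def]⟩

theorem reach_proj {z z' : List (S × Bool)} (h : QReach (Phat P) z z') :
    QReach P (z.map Prod.fst) (z'.map Prod.fst) := by
  induction h with
  | refl => exact ReflTransGen.refl
  | tail _ h ih => exact ih.tail (phat_proj P h)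

theorem reach_lift {w w' : List S} (h : QReach P w w') :
    ∀ z : List (S × Bool), z.map Prod.fst = w →
      ∃ z', QReach (Phat P) z z' ∧ z'.map Prod.fst = w' := by
  induction h with
  | refl => exact fun z hz => ⟨z, ReflTransGen.refl, hz⟩
  | tail _ h ih =>
    intro z hz
    obtain ⟨z1, h1, h2⟩ := ih z hz
    rw [← h2] at h
    obtain ⟨z2, h3, h4⟩ := phat_lift P h
    exact ⟨z2, h1.tail h3, h4⟩

theorem reach_iff (w : List S) :
    QReach P w [K] ↔ ∃ b, QReach (Phat P) (w.map (fun z => (z, false))) [(K, b)] := by
  constructor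
  · intro h
    obtain ⟨z', h1, h2⟩ := reach_lift P h (w.map (fun z => (z, false)))
      (by simp [Function.comp_def])
    match z', h2 with
    | [(k, b)], h2 =>
      simp only [List.map_cons, List.map_nil, List.cons.injEq, and_true] at h2
      subst h2
      exact ⟨b, h1⟩
  · rintro ⟨b, h⟩
    have := reach_proj P h
    simpa [Function.comp_def] using this

variable [Fintype S] (c : S × Bool → ℕ)

/-- All pairs of coloured letters. -/
noncomputable def pairs (S : Type) [Fintype S] : List ((S × Bool) × (S × Bool)) :=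
  (Finset.univ : Finset ((S × Bool) × (S × Bool))).toList

/-- The words consumed by the dominoes. -/
noncomputable def G : List (List ℕ) :=
  [0] :: [c (K, false), 1] :: [c (K, true), 1] :: (pairs S).map (fun p => [c p.1, c p.2])

/-- The words produced by the dominoes other than the start domino. -/
noncomputable def Htail : List (List ℕ) :=
  [1] :: [1] :: (pairs S).map (fun p => (Phat P p.1 p.2).map c)

/-- The words produced by the dominoes, for the start word `w`. -/
noncomputable def H (w : List ℕ) : List (List ℕ) := (0 :: w) :: Htail P c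

theorem length_eq (w : List ℕ) : (H P c w).length = (G K c).length := by
  simp [H, Htail, G]

theorem dom_cases (w : List ℕ) {i : ℕ} (hi : i < (H P c w).length) :
    (i = 0 ∧ (G K c).getD i [] = [0] ∧ (H P c w).getD i [] = 0 :: w) ∨
    (∃ b, (G K c).getD i [] = [c (K, b), 1] ∧ (H P c w).getD i [] = [1]) ∨
    (∃ x y, (G K c).getD i [] = [c x, c y] ∧ (H P c w).getD i [] = (Phat P x y).map c) := by
  match i, hi with
  | 0, _ => exact Or.inl ⟨rfl, rfl, rfl⟩
  | 1, _ => exact Or.inr (Or.inl ⟨false, rfl, rfl⟩)
  | 2, _ => exact Or.inr (Or.inl ⟨true, rfl, rfl⟩)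
  | k + 3, hi =>
    right; right
    have hk : k < (pairs S).length := by
      simp only [H, Htail, List.length_cons, List.length_map] at hi
      omega
    refine ⟨(pairs S)[k].1, (pairs S)[k].2, ?_, ?_⟩
    · simp [G, List.getD_eq_getElem?_getD, hk]
    · simp [H, Htail, List.getD_eq_getElem?_getD, hk]

theorem dom_exists (w : List ℕ) (x y : S × Bool) :
    ∃ i, i < (H P c w).length ∧ (G K c).getD i [] = [c x, c y] ∧
      (H P c w).getD i [] = (Phat P x y).map c := by
  have hmem : (x, y) ∈ pairs S := by simp [pairs]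
  obtain ⟨k, hk, hk2⟩ := List.getElem_of_mem hmem
  refine ⟨k + 3, ?_, ?_, ?_⟩
  · simp only [H, Htail, List.length_cons, List.length_map]
    omega
  · simp [G, List.getD_eq_getElem?_getD, hk, hk2]
  · simp [H, Htail, List.getD_eq_getElem?_getD, hk, hk2]

theorem end_exists (w : List ℕ) (b : Bool) :
    ∃ i, i < (H P c w).length ∧ (G K c).getD i [] = [c (K, b), 1] ∧
      (H P c w).getD i [] = [1] := by
  cases b
  · exact ⟨1, by simp [H, Htail], rfl, rfl⟩
  · exact ⟨2, by simp [H, Htail], rfl, rfl⟩

variable (hc : Function.Injective c) (hc2 : ∀ x, 2 ≤ c x)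
variable (hP1 : ∀ x y, 2 ≤ (P x y).length ∨ P x y = [K])
variable (hP2 : ∀ y, (P K y).head? ≠ some y)

include hc hc2 in
theorem G_nodup : (G K c).Nodup := by
  have h1 : ∀ x, c x ≠ 1 := fun x h => by have := hc2 x; omega
  have h3 : ((pairs S).map (fun p => [c p.1, c p.2])).Nodup := by
    refine List.Nodup.map ?_ (Finset.nodup_toList _)
    rintro ⟨a, b⟩ ⟨a', b'⟩ h
    simp only [List.cons.injEq, and_true] at h
    rw [hc h.1, hc h.2]
  simp only [G, List.nodup_cons, List.mem_cons, List.mem_map, List.cons.injEq, and_true,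
    not_or, not_exists, not_and]
  refine ⟨⟨by simp, by simp, by simp⟩, ⟨?_, ?_⟩, ?_, h3⟩
  · intro h
    have := hc h
    simp at this
  · intro p _ _
    exact h1 _
  · intro p _ _
    exact h1 _

include hc hc2 in
theorem G_inj {i j : ℕ} (hi : i < (G K c).length) (hj : j < (G K c).length)
    (h : (G K c).getD i [] = (G K c).getD j []) : i = j := by
  rw [List.getD_eq_getElem _ _ hi, List.getD_eq_getElem _ _ hj] at h
  exact ((G_nodup K c hc hc2).getElem_inj_iff).1 h

omit [Fintype S] in
include hP1 in
theorem P_ne_nil (x y : S) : P x y ≠ [] := by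
  intro h
  rcases hP1 x y with h1 | h1
  · rw [h] at h1
    simp at h1
  · rw [h] at h1
    simp at h1

include hc hc2 hP1 hP2

omit hP1 hP2 in
theorem next_two (w : List ℕ) {i : ℕ} (hi : i < (H P c w).length) {x y : S × Bool}
    {t : List (S × Bool)}
    (h : Comp ((x :: y :: t).map c ++ (H P c w).getD i []) ((G K c).getD i [])) :
    (G K c).getD i [] = [c x, c y] ∧ (H P c w).getD i [] = (Phat P x y).map c := by
  have h0 : ∀ x, c x ≠ 0 := fun x h => by have := hc2 x; omega
  have h1 : ∀ x, c x ≠ 1 := fun x h => by have := hc2 x; omega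
  rcases dom_cases P K c w hi with ⟨-, hg, -⟩ | ⟨b, hg, -⟩ | ⟨x', y', hg, hh⟩
  · rw [hg] at h
    exact absurd (comp_cons h).1 (h0 _)
  · rw [hg] at h
    exact absurd (comp_cons (comp_cons h).2).1 (h1 _)
  · rw [hg] at h
    have e1 := hc (comp_cons h).1
    have e2 := hc (comp_cons (comp_cons h).2).1
    subst e1 e2
    exact ⟨hg, hh⟩

theorem next_one (w : List ℕ) {i : ℕ} (hi : i < (H P c w).length) {b : Bool}
    (h : Comp ([(K, b)].map c ++ (H P c w).getD i []) ((G K c).getD i [])) :
    (G K c).getD i [] = [c (K, b), 1] ∧ (H P c w).getD i [] = [1] := by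
  have h0 : ∀ x, c x ≠ 0 := fun x h => by have := hc2 x; omega
  rcases dom_cases P K c w hi with ⟨-, hg, -⟩ | ⟨b', hg, hh⟩ | ⟨x', y', hg, hh⟩
  · rw [hg] at h
    exact absurd (comp_cons h).1 (h0 _)
  · rw [hg] at h
    have e1 := hc (comp_cons h).1
    simp only [Prod.mk.injEq, true_and] at e1
    subst e1
    exact ⟨hg, hh⟩
  · exfalso
    rw [hg, hh] at h
    have e1 := hc (comp_cons h).1
    have e2 := (comp_cons h).2
    subst e1
    have e3 : Comp ((Phat P (K, b) y').map c) [c y'] := e2
    simp only [Phat] at e3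
    rcases hp : P K y'.1 with _ | ⟨p, ps⟩
    · exact P_ne_nil P K hP1 _ _ hp
    · rw [hp] at e3
      simp only [List.map_cons] at e3
      have e4 := hc (comp_cons e3).1
      apply hP2 y'.1
      rw [hp, ← e4]
      rfl

/-- The words `h(u)` and `g(u)`. -/
abbrev app (L : List (List ℕ)) (u : List ℕ) : List ℕ := u.flatMap (fun i => L.getD i [])

omit hc hc2 hP1 hP2 [Fintype S] in
theorem app_snoc (L : List (List ℕ)) (u : List ℕ) (i : ℕ) :
    app L (u ++ [i]) = app L u ++ L.getD i [] := by
  simp [app]

theorem start_only (w : List ℕ) {i : ℕ} (hi : i < (H P c w).length)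
    (h : Comp ((H P c w).getD i []) ((G K c).getD i [])) :
    (G K c).getD i [] = [0] ∧ (H P c w).getD i [] = 0 :: w := by
  have h1 : ∀ x, c x ≠ 1 := fun x h => by have := hc2 x; omega
  rcases dom_cases P K c w hi with ⟨-, hg, hh⟩ | ⟨b, hg, hh⟩ | ⟨x, y, hg, hh⟩
  · exact ⟨hg, hh⟩
  · rw [hg, hh] at h
    exact absurd (comp_cons h).1.symm (h1 _)
  · exfalso
    rw [hg, hh, Phat] at h
    rcases hp : P x.1 y.1 with _ | ⟨p, ps⟩
    · exact P_ne_nil P K hP1 _ _ hp
    · rw [hp] at h
      simp only [List.map_cons] at h
      have e := hc (comp_cons h).1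
      have e2 := congrArg Prod.snd e
      simp at e2

theorem inv (w0 : List (S × Bool)) (hw : 2 ≤ w0.length) (u : List ℕ) :
    (∀ i ∈ u, i < (H P c (w0.map c)).length) →
    Comp (app (H P c (w0.map c)) u) (app (G K c) u) →
    app (H P c (w0.map c)) u = app (G K c) u ∨
    ∃ z, app (H P c (w0.map c)) u = app (G K c) u ++ z.map c ∧
      (2 ≤ z.length ∨ ∃ b, z = [(K, b)]) ∧ QReach (Phat P) w0 z := by
  induction u using List.reverseRecOn with
  | nil => intro _ _; left; rfl
  | append_singleton u i ih =>
    intro hu hcomp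
    have hi : i < (H P c (w0.map c)).length := hu i (by simp)
    rw [app_snoc, app_snoc] at hcomp ⊢
    rcases ih (fun j hj => hu j (by simp [hj])) (comp_prefix hcomp) with h | ⟨z, hz, hgood, hr⟩
    · rw [h] at hcomp ⊢
      rw [comp_append_left] at hcomp
      obtain ⟨hg, hh⟩ := start_only P K c hc hc2 hP1 hP2 _ hi hcomp
      right
      refine ⟨w0, ?_, Or.inl hw, ReflTransGen.refl⟩
      rw [hg, hh]
      simp
    · rw [hz, List.append_assoc] at hcomp ⊢
      rw [comp_append_left] at hcomp
      rcases hgood with hgood | ⟨b, rfl⟩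
      · match z, hgood, hcomp, hr with
        | x :: y :: t, _, hcomp, hr =>
          obtain ⟨hg, hh⟩ := next_two P K c hc hc2 _ hi hcomp
          right
          refine ⟨t ++ Phat P x y, ?_, ?_, hr.tail (QStep.mk x y t)⟩
          · rw [hg, hh]
            simp
          · rcases hP1 x.1 y.1 with h | h
            · left
              simp only [List.length_append, Phat, List.length_map]
              omega
            · rcases t with _ | ⟨t1, t⟩
              · right
                exact ⟨!x.2, by simp [Phat, h]⟩
              · left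
                simp [Phat, h]
      · obtain ⟨hg, hh⟩ := next_one P K c hc hc2 hP1 hP2 _ hi hcomp
        left
        rw [hg, hh]
        simp

theorem uec (w0 : List (S × Bool)) (hw : 2 ≤ w0.length) (u : List ℕ)
    (hu : ∀ i ∈ u, i < (H P c (w0.map c)).length) (a b : ℕ)
    (ha : a < (H P c (w0.map c)).length) (hb : b < (H P c (w0.map c)).length) (hab : a ≠ b)
    (h1 : Comp (app (H P c (w0.map c)) (u ++ [a])) (app (G K c) (u ++ [a])))
    (h2 : Comp (app (H P c (w0.map c)) (u ++ [b])) (app (G K c) (u ++ [b]))) :
    app (H P c (w0.map c)) u = app (G K c) u := by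
  rw [app_snoc, app_snoc] at h1 h2
  rcases inv P K c hc hc2 hP1 hP2 w0 hw u hu (comp_prefix h1) with h | ⟨z, hz, hgood, hr⟩
  · exact h
  · exfalso
    apply hab
    have hlen := length_eq P K c (w0.map c)
    apply G_inj K c hc hc2 (hlen ▸ ha) (hlen ▸ hb)
    rw [hz, List.append_assoc, comp_append_left] at h1 h2
    rcases hgood with hgood | ⟨b, rfl⟩
    · match z, hgood, h1, h2 with
      | x :: y :: t, _, h1, h2 =>
        rw [(next_two P K c hc hc2 _ ha h1).1, (next_two P K c hc hc2 _ hb h2).1]
    · rw [(next_one P K c hc hc2 hP1 hP2 _ ha h1).1, (next_one P K c hc hc2 hP1 hP2 _ hb h2).1]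

theorem solution_reach (w0 : List (S × Bool)) (hw : 2 ≤ w0.length) (x : List ℕ) (hx : x ≠ [])
    (hv : ∀ i ∈ x, i < (H P c (w0.map c)).length)
    (h : app (H P c (w0.map c)) x = app (G K c) x) : ∃ b, QReach (Phat P) w0 [(K, b)] := by
  obtain ⟨u, i, rfl⟩ : ∃ u i, x = u ++ [i] :=
    ⟨x.dropLast, x.getLast hx, (List.dropLast_append_getLast hx).symm⟩
  have hi : i < (H P c (w0.map c)).length := hv i (by simp)
  have hcomp : Comp (app (H P c (w0.map c)) (u ++ [i])) (app (G K c) (u ++ [i])) := by
    rw [h]; exact Or.inl List.prefix_rfl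
  rw [app_snoc, app_snoc] at hcomp h
  rcases inv P K c hc hc2 hP1 hP2 w0 hw u (fun j hj => hv j (by simp [hj])) (comp_prefix hcomp)
    with h' | ⟨z, hz, hgood, hr⟩
  · exfalso
    rw [h'] at hcomp h
    rw [comp_append_left] at hcomp
    obtain ⟨hg, hh⟩ := start_only P K c hc hc2 hP1 hP2 _ hi hcomp
    rw [hg, hh] at h
    have h2 := List.append_cancel_left h
    simp only [List.cons.injEq, true_and, List.map_eq_nil_iff] at h2
    rw [h2] at hw
    simp at hw
  · rcases hgood with hgood | ⟨b, rfl⟩
    · exfalso
      rw [hz, List.append_assoc] at hcomp h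
      rw [comp_append_left] at hcomp
      match z, hgood, hcomp, h with
      | x :: y :: t, _, hcomp, h =>
        obtain ⟨hg, hh⟩ := next_two P K c hc hc2 _ hi hcomp
        rw [hg, hh] at h
        have := congrArg List.length h
        simp only [List.length_append, List.length_map, List.length_cons, List.length_nil,
          Phat] at this
        have hne : (P x.1 y.1).length ≠ 0 := by
          intro h0
          exact P_ne_nil P K hP1 _ _ (List.eq_nil_of_length_eq_zero h0)
        omega
    · exact ⟨b, hr⟩

omit hc hc2 hP1 hP2 in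
theorem reach_solution (w0 : List (S × Bool)) {b : Bool} (h : QReach (Phat P) w0 [(K, b)]) :
    ∃ x : List ℕ, x ≠ [] ∧ (∀ i ∈ x, i < (H P c (w0.map c)).length) ∧
      app (H P c (w0.map c)) x = app (G K c) x := by
  have key : ∀ z, QReach (Phat P) w0 z →
      ∃ u : List ℕ, (∀ i ∈ u, i < (H P c (w0.map c)).length) ∧
        app (H P c (w0.map c)) u = app (G K c) u ++ z.map c := by
    intro z hz
    induction hz with
    | refl =>
      refine ⟨[0], by simp [H], ?_⟩
      simp [app, H, G]
    | tail _ hs ih =>
      obtain ⟨u, hu, he⟩ := ih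
      cases hs with
      | mk x y t =>
        obtain ⟨i, hi, hg, hh⟩ := dom_exists P K c (w0.map c) x y
        refine ⟨u ++ [i], ?_, ?_⟩
        · intro j hj
          simp only [List.mem_append, List.mem_singleton] at hj
          rcases hj with hj | rfl
          · exact hu j hj
          · exact hi
        · rw [app_snoc, app_snoc, he, hg, hh]
          simp
  obtain ⟨u, hu, he⟩ := key _ h
  obtain ⟨i, hi, hg, hh⟩ := end_exists P K c (w0.map c) b
  refine ⟨u ++ [i], by simp, ?_, ?_⟩
  · intro j hj
    simp only [List.mem_append, List.mem_singleton] at hj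
    rcases hj with hj | rfl
    · exact hu j hj
    · exact hi
  · rw [app_snoc, app_snoc, he, hg, hh]
    simp

end

end Pool.Agent.Helper247.UecPcp
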